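import Mathlib

namespace Pool.Agent.H.MP_a73859_co

open SimpleGraph Finset

variable {n : ℕ}

def mg (lab : Fin n → ℕ) (u v : Fin n) : Fin n → ℕ := fun x => if lab x = lab v then lab u else lab x

def Z (q : ℚ) : List (Fin n × Fin n) → (Fin n → ℕ) → ℚ
  | [], _ => 1
  | e :: es, lab => if lab e.1 = lab e.2 then (q - 1) * Z q es lab
      else Z q es (mg lab e.1 e.2) - Z q es lab

def Rep (H : SimpleGraph (Fin n)) (lab : Fin n → ℕ) : Prop := ∀ x y, lab x = lab y ↔ H.Reachable x y

lemma Rep.card {H : SimpleGraph (Fin n)} {lab} (h : Rep H lab) :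
    Nat.card H.ConnectedComponent = (univ.image lab).card := by
  rw [← Nat.card_eq_finsetCard]
  refine Nat.card_eq_of_bijective (Quot.lift (fun x => ⟨lab x, mem_image_of_mem _ (mem_univ x)⟩)
    fun x y r => Subtype.ext ((h x y).2 r)) ⟨?_, ?_⟩
  · rintro ⟨x⟩ ⟨y⟩ e
    exact ConnectedComponent.sound ((h x y).1 (congrArg Subtype.val e))
  · rintro ⟨_, hz⟩
    obtain ⟨x, -, rfl⟩ := mem_image.1 hz
    exact ⟨H.connectedComponentMk x, rfl⟩

lemma Rep.mg {H : SimpleGraph (Fin n)} {lab} (h : Rep H lab) (u v : Fin n) :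
    Rep (H ⊔ fromEdgeSet {s(u, v)}) (mg lab u v) := fun x y => by
  have a : ∀ x y, lab x = lab y → (H ⊔ fromEdgeSet {s(u, v)}).Reachable x y :=
    fun x y e => ((h x y).1 e).mono le_sup_left
  have b : (H ⊔ fromEdgeSet {s(u, v)}).Reachable u v := by
    by_cases e : u = v
    · rw [e]
    · exact Adj.reachable (Or.inr (by simp [e]))
  constructor
  · unfold MP_a73859_co.mg
    split_ifs with h1 h2 h2 <;> intro e
    · exact a _ _ (h1.trans h2.symm)
    · exact (a _ _ h1).trans (b.symm.trans (a _ _ e))
    · exact (a _ _ e).trans (b.trans (a _ _ h2.symm))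
    · exact a _ _ e
  · rintro ⟨w⟩
    induction w with
    | nil => rfl
    | cons r _ ih =>
      refine Eq.trans ?_ ih
      rcases r with r | r
      · simp only [MP_a73859_co.mg, (h _ _).2 r.reachable]
      · simp only [fromEdgeSet_adj, Set.mem_singleton_iff, Sym2.eq_iff] at r
        rcases r.1 with ⟨rfl, rfl⟩ | ⟨rfl, rfl⟩ <;> simp [MP_a73859_co.mg]

lemma mg_card (lab : Fin n → ℕ) {u v : Fin n} (h : lab u ≠ lab v) :
    (univ.image (mg lab u v)).card + 1 = (univ.image lab).card := by
  rw [← card_erase_add_one (mem_image_of_mem lab (mem_univ v))]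
  congr 2
  ext z
  simp only [mem_image, mem_univ, true_and, mem_erase, mg]
  constructor
  · rintro ⟨x, rfl⟩
    split_ifs with e
    · exact ⟨h, u, rfl⟩
    · exact ⟨e, x, rfl⟩
  · rintro ⟨e, x, rfl⟩
    exact ⟨x, if_neg e⟩

lemma sumZ (q : ℚ) (hq : q ≠ 0) (es : List (Fin n × Fin n))
    (nd : (es.map fun e => s(e.1, e.2)).Nodup) (H : SimpleGraph (Fin n)) (lab) (h : Rep H lab) :
    ∑ A ∈ (es.map fun e => s(e.1, e.2)).toFinset.powerset, (-1 : ℝ) ^ (es.length + A.card) *
      (q : ℝ) ^ ((A.card : ℤ) - (univ.image lab).card +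
        Nat.card (H ⊔ fromEdgeSet A).ConnectedComponent) = Z q es lab := by
  have hq' : (q : ℝ) ≠ 0 := by exact_mod_cast hq
  induction es generalizing H lab with
  | nil => simp [Z, ← h.card]
  | cons e es ih =>
    rw [List.map_cons, List.nodup_cons] at nd
    have ne : s(e.1, e.2) ∉ (es.map fun e => s(e.1, e.2)).toFinset := by simpa using nd.1
    rw [List.map_cons, List.toFinset_cons, sum_powerset_insert ne]
    have i1 := ih nd.2 H lab h
    have i2 := ih nd.2 _ _ (h.mg e.1 e.2)
    have e2 : ∀ (k : ℤ), ∑ A ∈ (es.map fun e => s(e.1, e.2)).toFinset.powerset,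
        (-1 : ℝ) ^ ((e :: es).length + (insert s(e.1, e.2) A).card) *
        (q : ℝ) ^ (((insert s(e.1, e.2) A).card : ℤ) - k +
          Nat.card (H ⊔ fromEdgeSet ↑(insert s(e.1, e.2) A)).ConnectedComponent) =
        ∑ A ∈ (es.map fun e => s(e.1, e.2)).toFinset.powerset, (-1 : ℝ) ^ (es.length + A.card) *
        (q : ℝ) ^ ((A.card : ℤ) - (k - 1) +
          Nat.card ((H ⊔ fromEdgeSet {s(e.1, e.2)}) ⊔ fromEdgeSet A).ConnectedComponent) :=
      fun k => sum_congr rfl fun A hA => by
        rw [card_insert_of_notMem fun h => ne (mem_powerset.1 hA h), coe_insert,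
          Set.insert_eq, fromEdgeSet_union, sup_assoc, List.length_cons]
        congr 1
        · ring
        · congr 1; push_cast; ring
    rw [e2]
    have e1 : ∀ a : ℕ, (-1 : ℝ) ^ ((e :: es).length + a) = -(-1) ^ (es.length + a) := fun a => by
      rw [List.length_cons]; ring
    simp only [e1, neg_mul, sum_neg_distrib, i1, Z]
    split_ifs with c
    · have : mg lab e.1 e.2 = lab := funext fun x => by
        unfold mg; split_ifs with d
        · rw [c, d]
        · rfl
      rw [this] at i2
      push_cast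
      rw [sub_mul, ← i2, mul_sum, one_mul, neg_add_eq_sub]
      congr 1
      refine sum_congr rfl fun A _ => ?_
      rw [mul_left_comm, ← zpow_one_add₀ hq']
      congr 2; ring
    · push_cast
      rw [← i2, ← mg_card lab c, neg_add_eq_sub]
      simp

lemma Z_congr (q : ℚ) (es : List (Fin n × Fin n)) (act : List (Fin n))
    (ha : ∀ e ∈ es, e.1 ∈ act ∧ e.2 ∈ act) (l l' : Fin n → ℕ)
    (h : ∀ x ∈ act, ∀ y ∈ act, l x = l y ↔ l' x = l' y) : Z q es l = Z q es l' := by
  induction es generalizing l l' with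
  | nil => rfl
  | cons e es ih =>
    have h1 := ha e (by simp)
    have h2 : ∀ e ∈ es, e.1 ∈ act ∧ e.2 ∈ act := fun e he => ha e (by simp [he])
    simp only [Z, h _ h1.1 _ h1.2, ih h2 l l' h]
    rw [ih h2 (mg l e.1 e.2) (mg l' e.1 e.2) fun x hx y hy => ?_]
    simp only [mg, h _ hx _ h1.2, h _ hy _ h1.2]
    split_ifs
    exacts [by simp, h _ h1.1 _ hy, h _ hx _ h1.1, h _ hx _ hy]

def canon (act : List (Fin n)) (l : Fin n → ℕ) : List ℕ :=
  (List.finRange n).map fun x => if x ∈ act then act.findIdx (fun y => l y == l x) else 0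

def gt (c : List ℕ) : Fin n → ℕ := fun x => c.getD x 0

def actv (es : List (Fin n × Fin n)) : List (Fin n) :=
  (List.finRange n).filter fun x => es.any fun e => e.1 == x || e.2 == x

lemma Z_canon (q : ℚ) (es : List (Fin n × Fin n)) (l : Fin n → ℕ) :
    Z q es (gt (canon (actv es) l)) = Z q es l := by
  refine Z_congr q es (actv es) (fun e he => ?_) _ _ fun x hx y hy => ?_
  · simp only [actv, List.mem_filter, List.mem_finRange, List.any_eq_true, true_and]
    exact ⟨⟨e, he, by simp⟩, e, he, by simp⟩
  · generalize actv es = act at hx hy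
    have g : ∀ x ∈ act, gt (canon act l) x = act.findIdx (fun y => l y == l x) := fun x hx => by
      simp [gt, canon, hx]
    rw [g x hx, g y hy]
    refine ⟨fun e => ?_, fun e => by rw [e]⟩
    have a1 : act.findIdx (fun y => l y == l x) < act.length :=
      List.findIdx_lt_length_of_exists ⟨x, hx, by simp⟩
    have a2 : act.findIdx (fun z => l z == l y) < act.length := e ▸ a1
    have b1 := List.findIdx_getElem (w := a1)
    have b2 := List.findIdx_getElem (w := a2)
    simp only [e, beq_iff_eq] at b1 b2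
    exact b1.symm.trans b2

def ins (c : List ℕ) (w : ℚ) : List (List ℕ × ℚ) → List (List ℕ × ℚ)
  | [] => [(c, w)]
  | p :: S => if c = p.1 then (p.1, p.2 + w) :: S else p :: ins c w S

def val (q : ℚ) (es : List (Fin n × Fin n)) (S : List (List ℕ × ℚ)) : ℚ :=
  (S.map fun p => p.2 * Z q es (gt p.1)).sum

lemma val_ins (q : ℚ) (es : List (Fin n × Fin n)) (c w S) :
    val q es (ins c w S) = w * Z q es (gt c) + val q es S := by
  induction S with
  | nil => simp [ins, val]
  | cons p S ih =>
    unfold ins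
    split_ifs with h
    · simp only [val, h, List.map_cons, List.sum_cons]; ring
    · simp only [val, List.map_cons, List.sum_cons] at ih ⊢
      rw [ih]; ring

def step (q : ℚ) (e : Fin n × Fin n) (act : List (Fin n)) :
    List (List ℕ × ℚ) → List (List ℕ × ℚ)
  | [] => []
  | p :: S => if gt p.1 e.1 = gt p.1 e.2 then ins (canon act (gt p.1)) ((q - 1) * p.2) (step q e act S)
      else ins (canon act (gt p.1)) (-p.2) (ins (canon act (mg (gt p.1) e.1 e.2)) p.2 (step q e act S))

lemma val_step (q : ℚ) (e) (es : List (Fin n × Fin n)) (S) :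
    val q es (step q e (actv es) S) = val q (e :: es) S := by
  induction S with
  | nil => rfl
  | cons p S ih =>
    unfold step
    split_ifs with h <;> simp only [val_ins, ih, Z_canon] <;>
      simp only [val, List.map_cons, List.sum_cons, Z, h, if_true, if_false] <;> ring

def run (q : ℚ) : List (Fin n × Fin n) → List (List ℕ × ℚ) → ℚ
  | [], S => (S.map Prod.snd).sum
  | e :: es, S => run q es (step q e (actv es) S)

lemma run_eq (q : ℚ) (es : List (Fin n × Fin n)) (S) : run q es S = val q es S := by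
  induction es generalizing S with
  | nil => simp [run, val, Z]
  | cons e es ih => rw [run, ih, val_step]

end Pool.Agent.H.MP_a73859_co
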